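import Pool.Agent.K1H76.DK.Stm
import Pool.Agent.Erdos456.Mertens

/-! Mertens' upper bound for the sum of the reciprocals of the primes (project DK, piece MER). -/

set_option autoImplicit false

namespace Pool.Agent.K1H68.DK

open Pool.Agent.K1H76.DK

theorem t_MER : S_MER := by
  obtain ⟨C, hC⟩ := Pool.Agent.Erdos456.Mert.mertens_inv
  have hC0 : 0 ≤ C := (abs_nonneg _).trans (hC 3 le_rfl)
  refine ⟨C, hC0, fun Y hY => ?_⟩
  have h := (abs_le.1 (hC Y hY)).2
  linarith

end Pool.Agent.K1H68.DK

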